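import Pool.Agent.PCL.Stmts

/-!
Squad PCL, row PTH: the pencil theorem.
-/

set_option autoImplicit false

namespace Pool.Agent.PCL.H82

theorem three (A : Finset ℤ) (h : 3 ≤ A.card) :
    ∃ a : Fin 3 → ℤ, Function.Injective a ∧ ∀ j, a j ∈ A :=
  ⟨A.orderEmbOfCardLe h, (A.orderEmbOfCardLe h).injective, fun j => A.orderEmbOfCardLe_mem h j⟩

theorem lq {Q : ℕ} (hQ : 2 ≤ Q) : 1 ≤ 3 * (Real.log Q) ^ 2 := by
  have h1 : Real.log 2 ≤ Real.log Q := Real.log_le_log (by norm_num) (by exact_mod_cast hQ)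
  have h2 := Real.log_two_gt_d9
  nlinarith

theorem kq {Q : ℕ} (hQ : 2 ≤ Q) {x : ℝ} (hx : 0 ≤ x) :
    x ≤ Real.exp (3 * x * (Real.log Q) ^ 2) := by
  have h1 := Real.add_one_le_exp x
  have h2 : Real.exp x ≤ Real.exp (3 * x * (Real.log Q) ^ 2) := by
    apply Real.exp_le_exp.2
    nlinarith [mul_le_mul_of_nonneg_left (lq hQ) hx]
  linarith

theorem qq {Q : ℕ} (hQ : 2 ≤ Q) : (Q : ℝ) ≤ Real.exp (2 * (Real.log Q) ^ 2) := by
  have h1 : Real.log 2 ≤ Real.log Q := Real.log_le_log (by norm_num) (by exact_mod_cast hQ)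
  have h2 := Real.log_two_gt_d9
  calc (Q : ℝ) = Real.exp (Real.log Q) :=
        (Real.exp_log (Nat.cast_pos.2 (by omega))).symm
    _ ≤ _ := Real.exp_le_exp.2 (by nlinarith)

theorem dlt (m Q n : ℕ) (hQ : 2 ≤ Q) (hn : n ≤ 2 ^ Q) (Δ : ℤ) (hΔ0 : Δ ≠ 0)
    (hΔ : |Δ| ≤ (((2 * m).factorial *
      (16 * m * (2 * m).factorial * (8 * n) ^ (2 * m + 4)) ^ (2 * m) : ℕ) : ℤ)) :
    Real.logb 2 |(Δ : ℝ)| ≤
      (((2 * m).factorial + (2 * m) * (16 * (2 * m) * (2 * m).factorial) +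
        3 * (2 * m) * ((2 * m) + 4) : ℕ) : ℝ) * Q := by
  have key : (2 * m).factorial * (16 * m * (2 * m).factorial * (8 * n) ^ (2 * m + 4)) ^ (2 * m) ≤
      2 ^ (((2 * m).factorial + (2 * m) * (16 * (2 * m) * (2 * m).factorial) +
        3 * (2 * m) * ((2 * m) + 4)) * Q) := by
    have e1 : (2 * m).factorial ≤ 2 ^ (2 * m).factorial := Nat.lt_two_pow_self.le
    have e2 : 16 * m * (2 * m).factorial ≤ 2 ^ (16 * (2 * m) * (2 * m).factorial) := by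
      refine le_trans ?_ Nat.lt_two_pow_self.le
      exact Nat.mul_le_mul_right _ (by omega)
    have e3 : (8 * n) ^ (2 * m + 4) ≤ 2 ^ (3 * Q * (2 * m + 4)) := by
      rw [pow_mul]
      refine Nat.pow_le_pow_left ?_ _
      calc 8 * n ≤ 2 ^ 3 * 2 ^ Q := Nat.mul_le_mul (by norm_num) hn
        _ = 2 ^ (3 + Q) := (pow_add _ _ _).symm
        _ ≤ 2 ^ (3 * Q) := Nat.pow_le_pow_right (by norm_num) (by omega)
    calc (2 * m).factorial * (16 * m * (2 * m).factorial * (8 * n) ^ (2 * m + 4)) ^ (2 * m)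
        ≤ 2 ^ (2 * m).factorial *
          (2 ^ (16 * (2 * m) * (2 * m).factorial) * 2 ^ (3 * Q * (2 * m + 4))) ^ (2 * m) :=
          Nat.mul_le_mul e1 (Nat.pow_le_pow_left (Nat.mul_le_mul e2 e3) _)
      _ = 2 ^ ((2 * m).factorial +
          (16 * (2 * m) * (2 * m).factorial + 3 * Q * (2 * m + 4)) * (2 * m)) := by
          rw [← pow_add, ← pow_mul, ← pow_add]
      _ ≤ _ := by
          refine Nat.pow_le_pow_right (by norm_num) ?_
          have f1 : (2 * m).factorial ≤ (2 * m).factorial * Q := Nat.le_mul_of_pos_right _ (by omega)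
          have f2 : (2 * m) * (16 * (2 * m) * (2 * m).factorial) ≤
              (2 * m) * (16 * (2 * m) * (2 * m).factorial) * Q :=
            Nat.le_mul_of_pos_right _ (by omega)
          calc (2 * m).factorial +
              (16 * (2 * m) * (2 * m).factorial + 3 * Q * (2 * m + 4)) * (2 * m)
              = (2 * m).factorial + (2 * m) * (16 * (2 * m) * (2 * m).factorial) +
                3 * (2 * m) * ((2 * m) + 4) * Q := by ring
            _ ≤ (2 * m).factorial * Q + (2 * m) * (16 * (2 * m) * (2 * m).factorial) * Q +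
                3 * (2 * m) * ((2 * m) + 4) * Q := by omega
            _ = _ := by ring
  have h1 : (|(Δ : ℝ)|) ≤ (2 : ℝ) ^ (((2 * m).factorial +
      (2 * m) * (16 * (2 * m) * (2 * m).factorial) + 3 * (2 * m) * ((2 * m) + 4)) * Q) := by
    have h2 := hΔ.trans (Nat.cast_le.2 key)
    have h3 : ((|Δ| : ℤ) : ℝ) ≤ ((((2 : ℕ) ^ (((2 * m).factorial +
      (2 * m) * (16 * (2 * m) * (2 * m).factorial) + 3 * (2 * m) * ((2 * m) + 4)) * Q) : ℕ) : ℤ) : ℝ)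
      := Int.cast_le.2 h2
    rw [Int.cast_abs] at h3
    exact h3.trans (by norm_cast)
  have h0 : 0 < |(Δ : ℝ)| := abs_pos.2 (by exact_mod_cast hΔ0)
  calc Real.logb 2 |(Δ : ℝ)| ≤ Real.logb 2 ((2 : ℝ) ^ (((2 * m).factorial +
      (2 * m) * (16 * (2 * m) * (2 * m).factorial) + 3 * (2 * m) * ((2 * m) + 4)) * Q)) :=
        Real.logb_le_logb_of_le (by norm_num) h0 h1
    _ = _ := by
        rw [Real.logb_pow, Real.logb_self_eq_one (by norm_num), mul_one]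
        push_cast
        ring

theorem boxle (hCNT : CntStmt) {ι : Type} [Fintype ι] [DecidableEq ι] (N : ι → ℕ) (ε : ℝ)
    (hε : 0 < ε) (i₁ : ι) (hi : ∀ i, N i ≤ N i₁) :
    (bx N ε).card ≤ (2 * ⌊2 * ε * N i₁⌋₊ + 1) ^ Fintype.card ι := by
  rw [(hCNT ι N ε hε.le).1]
  calc ∏ i, (2 * ⌊ε * N i⌋₊ + 1) ≤ ∏ _i : ι, (2 * ⌊2 * ε * N i₁⌋₊ + 1) := by
        refine Finset.prod_le_prod' fun i _ => ?_
        have h1 : ⌊ε * N i⌋₊ ≤ ⌊2 * ε * N i₁⌋₊ := by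
          refine Nat.floor_le_floor ?_
          have h2 : (N i : ℝ) ≤ N i₁ := by exact_mod_cast hi i
          have h3 : ε * N i ≤ ε * N i₁ := mul_le_mul_of_nonneg_left h2 hε.le
          have h4 : 0 ≤ ε * N i₁ := by positivity
          linarith
        omega
    _ = _ := by
        rw [Finset.prod_const, Finset.card_univ]

theorem cas1 {ι : Type} [Fintype ι] [DecidableEq ι] {g : ι → ℂ} {N : ι → ℕ} {ε τ : ℝ}
    {T : Finset (ι → ℤ)} {Q : ℕ} (hg : LinearIndependent ℚ g) (hτ : 0 < τ)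
    (hF : Fam g N ε τ 8 T) (hQτ : 1 / τ ≤ Q) {v : ι → ℤ} (hv : v ∈ T) {E : ℝ} (hE1 : 1 ≤ E)
    (hE : (Q : ℝ) * (bx N ε).card ≤ E) :
    ∃ e : ℂ, e ≠ 0 ∧ Real.sqrt (∏ i, (N i : ℝ)) ≤ E * cnt (Lat g e) N 8 := by
  refine ⟨pt g v, fun h => hF.nz v hv (pt_eq_zero hg h), ?_⟩
  have h1 := hF.rich v hv
  have hP : 0 ≤ ∏ i, (N i : ℝ) := by positivity
  have h2 : ∏ i, (N i : ℝ) ≤ E * (cnt (Lat g (pt g v)) N 8 : ℝ) ^ 2 := by
    calc ∏ i, (N i : ℝ) = (1 / τ) * (τ * ∏ i, (N i : ℝ)) := by field_simp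
      _ ≤ (1 / τ) * ((cnt (Lat g (pt g v)) N 8 : ℝ) ^ 2 * (bx N ε).card) :=
          mul_le_mul_of_nonneg_left h1 (by positivity)
      _ ≤ Q * ((cnt (Lat g (pt g v)) N 8 : ℝ) ^ 2 * (bx N ε).card) :=
          mul_le_mul_of_nonneg_right hQτ (by positivity)
      _ = (Q * (bx N ε).card) * (cnt (Lat g (pt g v)) N 8 : ℝ) ^ 2 := by ring
      _ ≤ E * (cnt (Lat g (pt g v)) N 8 : ℝ) ^ 2 := mul_le_mul_of_nonneg_right hE (by positivity)
  rw [Real.sqrt_le_iff]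
  refine ⟨by positivity, h2.trans ?_⟩
  rw [mul_pow]
  refine mul_le_mul_of_nonneg_right ?_ (by positivity)
  nlinarith

/-- second case -/
theorem cas2 (hCNT : CntStmt) (hLNP : LnpStmt) (hRNK : RnkStmt) (hCRA : CraStmt)
    (hDTM : DtmStmt) (hKAP : KapStmt) {ι : Type} [Fintype ι] [DecidableEq ι] {g : ι → ℂ}
    {N : ι → ℕ} {ε τ δ : ℝ} {T : Finset (ι → ℤ)} {Q : ℕ} (hN : ∀ i, 1 ≤ N i)
    (hg : LinearIndependent ℚ g) (hε : 0 < ε) (hε1 : ε ≤ 1) (hτ : 0 < τ) (hδ : 0 < δ)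
    (hF : Fam g N ε τ 8 T) (hδT : δ * (bx N ε).card ≤ T.card)
    (hτε : 72 ^ Fintype.card ι * ε < τ) (hτN : ∀ i, 72 ^ Fintype.card ι < τ * N i) (hQ : 2 ≤ Q)
    (hQδ : 1 / δ ≤ Q) (hNQ : ∀ i, N i ≤ 2 ^ Q) (i₁ : ι) (hi : ∀ i, N i ≤ N i₁)
    (y Z k : ℕ) (hy : 2 ≤ y) (hZ : 2 ≤ Z) (hk : 1 ≤ k)
    (hpar : ∀ m : ℕ, 1 ≤ m → m ≤ Fintype.card ι → ∀ δ₁ Λ' : ℝ,
      1 / (3 ^ Fintype.card ι * (Q : ℝ)) ≤ δ₁ →
      Λ' ≤ (((Fintype.card ι).factorial +
        (Fintype.card ι) * (16 * (Fintype.card ι) * (Fintype.card ι).factorial) +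
        3 * (Fintype.card ι) * ((Fintype.card ι) + 4) : ℕ) : ℝ) * Q →
        16 * m * Λ' ≤ δ₁ * y ∧ 16 * m * (y : ℝ) ≤ δ₁ * Z ∧
        ((m : ℝ) * (1 + Real.log y)) ^ k / k.factorial ≤ δ₁ / 16)
    (hT3 : 3 ≤ T.card)
    (hU : 16 * (Fintype.card ι * (y : ℝ)) ^ k * (3 ^ Fintype.card ι * Q) ≤
      2 * (⌊2 * ε * N i₁⌋₊ : ℝ) + 1) :
    ∃ m : ℕ, 1 ≤ m ∧ Fintype.card ι = 2 * m ∧ ∃ e : ℂ, e ≠ 0 ∧
      (1 / (3 ^ Fintype.card ι * Q) / (4 * m)) ^ m * Real.sqrt (τ * ∏ i, (N i : ℝ)) ≤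
        ((m : ℝ) + 1) * (24 * ((m : ℝ) + 1) * m) ^ m * ((Z : ℝ) ^ (m * (m + 1) / 2)) ^ k *
        cnt (Lat g e) N 1 := by
  obtain ⟨m, hm1, hcard, hrk⟩ := hRNK ι g N ε τ T hN hg hε hε1 hF hτε hτN hT3
  refine ⟨m, hm1, hcard, ?_⟩
  have hQ0 : (0 : ℝ) < Q := Nat.cast_pos.2 (by omega)
  have hQ1 : (1 : ℝ) ≤ Q := by exact_mod_cast (by omega : 1 ≤ Q)
  have hδ' : 0 < min δ 1 := lt_min hδ one_pos
  have hQδ' : 1 / (Q : ℝ) ≤ min δ 1 := by
    refine le_min ?_ ?_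
    · rw [div_le_iff₀ hδ] at hQδ
      rw [div_le_iff₀ hQ0]
      linarith
    · rw [div_le_iff₀ hQ0]
      linarith
  obtain ⟨w, A, hA1, hA2, hA3⟩ := hLNP ι N ε (min δ 1) T i₁ hε hδ' hF.inb
    (le_trans (mul_le_mul_of_nonneg_right (min_le_left _ _) (by positivity)) hδT)
  set R : ℕ := ⌊2 * ε * N i₁⌋₊ with hR
  set e : ι → ℤ := Pi.single i₁ (1 : ℤ) with he
  set δ₁ : ℝ := min δ 1 / 3 ^ Fintype.card ι with hδ₁
  have hδ₁0 : 0 < δ₁ := by positivity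
  have hδ₁1 : δ₁ ≤ 1 := by
    rw [hδ₁, div_le_iff₀ (by positivity)]
    have h1 : (1 : ℝ) ≤ 3 ^ Fintype.card ι := one_le_pow₀ (by norm_num)
    have h2 : min δ 1 ≤ 1 := min_le_right _ _
    linarith
  have hδ₁Q : 1 / (3 ^ Fintype.card ι * (Q : ℝ)) ≤ δ₁ := by
    rw [hδ₁, one_div, mul_inv, mul_comm, ← div_eq_mul_inv]
    refine div_le_div_of_nonneg_right ?_ (by positivity)
    rw [← one_div]
    exact hQδ'
  have hcard1 : 1 ≤ Fintype.card ι := by omega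
  have hmc : m ≤ Fintype.card ι := by omega
  have hy0 : (2 : ℝ) ≤ y := by exact_mod_cast hy
  have hm0 : (1 : ℝ) ≤ m := by exact_mod_cast hm1
  have hmc' : (m : ℝ) ≤ Fintype.card ι := by exact_mod_cast hmc
  -- `δ₁ U ≥ 16 (D y)^k`
  have hUδ : 16 * (Fintype.card ι * (y : ℝ)) ^ k ≤ δ₁ * (2 * (R : ℝ) + 1) := by
    calc 16 * (Fintype.card ι * (y : ℝ)) ^ k =
        1 / (3 ^ Fintype.card ι * (Q : ℝ)) *
          (16 * (Fintype.card ι * (y : ℝ)) ^ k * (3 ^ Fintype.card ι * Q)) := by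
          field_simp
      _ ≤ 1 / (3 ^ Fintype.card ι * (Q : ℝ)) * (2 * (R : ℝ) + 1) :=
          mul_le_mul_of_nonneg_left hU (by positivity)
      _ ≤ δ₁ * (2 * (R : ℝ) + 1) := mul_le_mul_of_nonneg_right hδ₁Q (by positivity)
  have hDy : (Fintype.card ι * (y : ℝ)) ≤ (Fintype.card ι * (y : ℝ)) ^ k := by
    refine le_self_pow₀ ?_ (by omega)
    nlinarith
  have h4m : 4 * (m : ℝ) ≤ δ₁ * (2 * (R : ℝ) + 1) := by
    nlinarith
  have hA16 : (16 : ℝ) ≤ A.card := by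
    nlinarith
  have hA3' : 3 ≤ A.card := by
    have : 16 ≤ A.card := by exact_mod_cast hA16
    omega
  obtain ⟨a, hainj, haA⟩ := three A hA3'
  have he0 : e ≠ 0 := by
    intro h
    have := congrFun h i₁
    simp [he] at this
  have hpe : pt g e ≠ 0 := fun h => he0 (pt_eq_zero hg h)
  have hpw : ∀ t : ℝ, pt g w ≠ t * pt g e := by
    intro t ht
    have hv := hA2 (a 0) (haA 0)
    have hv' := hA2 (a 1) (haA 1)
    have hne : w + a 0 • e ≠ w + a 1 • e := by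
      intro h
      have h1 := congrFun h i₁
      simp [he] at h1
      have h2 := hainj h1
      simp at h2
    have h0 := hF.nz _ hv
    have p0 : pt g (w + a 0 • e) = ((t + a 0 : ℝ) : ℂ) * pt g e := by
      rw [pt_add, pt_smul, ht]
      push_cast
      ring
    have p1 : pt g (w + a 1 • e) = ((t + a 1 : ℝ) : ℂ) * pt g e := by
      rw [pt_add, pt_smul, ht]
      push_cast
      ring
    have q0 : (t + a 0 : ℝ) ≠ 0 := by
      intro h
      apply h0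
      apply pt_eq_zero hg
      rw [p0, h]
      simp
    refine hF.ncol _ hv _ hv' hne ((t + a 1) / (t + a 0)) ?_
    rw [p0, p1]
    have q0' : ((t + a 0 : ℝ) : ℂ) ≠ 0 := by exact_mod_cast q0
    rw [Complex.ofReal_div]
    field_simp
  have hRN : (R : ℝ) ≤ 2 * N i₁ := by
    calc (R : ℝ) ≤ 2 * ε * N i₁ := Nat.floor_le (by positivity)
      _ ≤ 2 * N i₁ := by
        have : (0 : ℝ) ≤ N i₁ := Nat.cast_nonneg _
        nlinarith
  have hRN' : R ≤ 2 * N i₁ := by exact_mod_cast hRN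
  obtain ⟨X, Y, θ, hPen, hXY⟩ := hCRA ι g m w e a (8 * N i₁) hg
    (by have := hN i₁; omega) hcard hainj hpe hpw
    (fun j => (hA1 _ (haA j)).trans (by exact_mod_cast (by omega : R ≤ 8 * N i₁)))
    (fun j => by
      obtain ⟨_, u, hu1, hu2⟩ := hrk _ (hA2 _ (haA j))
      refine ⟨u, hu1, fun k => ⟨(hu2 k).1, fun i => ?_⟩⟩
      have h1 := (hu2 k).2 i
      have h2 : (N i : ℝ) ≤ N i₁ := by exact_mod_cast hi i
      have h3 : |((u k i : ℤ) : ℝ)| ≤ 8 * N i₁ := by linarith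
      have h4 : ((|u k i| : ℤ) : ℝ) ≤ (((8 * N i₁ : ℕ) : ℤ) : ℝ) := by
        push_cast
        exact h3
      exact_mod_cast h4)
  obtain ⟨Δ, hΔ0, hΔ1, hΔ2⟩ := hDTM ι g m w e X Y θ _ hg hcard hpe hpw hPen hXY
  have hΔ3 := dlt m Q (N i₁) hQ (hNQ i₁) Δ hΔ0 hΔ1
  rw [← hcard] at hΔ3
  obtain ⟨hp1, hp2, hp3⟩ := hpar m hm1 hmc δ₁ _ hδ₁Q hΔ3
  have hUpos : (0 : ℝ) < 2 * (R : ℝ) + 1 := by positivity
  have hNpos : 0 < ∏ i, (N i : ℝ) :=
    Finset.prod_pos fun i _ => Nat.cast_pos.2 (hN i)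
  have hbox : ((bx N ε).card : ℝ) ≤ ((2 * (R : ℝ) + 1) ^ m) ^ 2 := by
    have h1 := boxle hCNT N ε hε i₁ hi
    have h2 : ((bx N ε).card : ℝ) ≤ (2 * (R : ℝ) + 1) ^ Fintype.card ι := by exact_mod_cast h1
    rw [← pow_mul, mul_comm m 2, ← hcard]
    exact h2
  have hmain := hKAP ι g N m w e A R X Y θ Δ
    (Real.sqrt (τ * ∏ i, (N i : ℝ)) / (2 * (R : ℝ) + 1) ^ m) δ₁ y Z k hN hg hm1 hcard hpe hpw
    hPen
    (fun b hb => by
      have hv := hA2 b hb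
      obtain ⟨hr1, hr2⟩ := hrk _ hv
      refine ⟨hA1 b hb, hr1, ?_, hr2⟩
      rw [div_le_iff₀ (by positivity), Real.sqrt_le_iff]
      refine ⟨by positivity, (hF.rich _ hv).trans ?_⟩
      rw [mul_pow]
      exact mul_le_mul_of_nonneg_left hbox (by positivity))
    (by
      have : 0 < Real.sqrt (τ * ∏ i, (N i : ℝ)) := Real.sqrt_pos.2 (by positivity)
      positivity)
    hδ₁0 hδ₁1 hA3 h4m hΔ0 hΔ2 hy hZ hk hp1 hp2 hp3
    (by
      refine le_trans ?_ hUδ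
      refine mul_le_mul_of_nonneg_left ?_ (by norm_num)
      refine pow_le_pow_left₀ (by positivity) ?_ _
      exact mul_le_mul_of_nonneg_right hmc' (by positivity))
  refine ⟨pt g e, hpe, le_trans ?_ hmain⟩
  have hS : 0 ≤ Real.sqrt (τ * ∏ i, (N i : ℝ)) := Real.sqrt_nonneg _
  calc (1 / (3 ^ Fintype.card ι * (Q : ℝ)) / (4 * m)) ^ m * Real.sqrt (τ * ∏ i, (N i : ℝ))
      ≤ (δ₁ / (4 * m)) ^ m * Real.sqrt (τ * ∏ i, (N i : ℝ)) := by
        refine mul_le_mul_of_nonneg_right ?_ hS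
        refine pow_le_pow_left₀ (by positivity) ?_ _
        exact div_le_div_of_nonneg_right hδ₁Q (by positivity)
    _ = (δ₁ * (2 * (R : ℝ) + 1) / (4 * m)) ^ m *
        (Real.sqrt (τ * ∏ i, (N i : ℝ)) / (2 * (R : ℝ) + 1) ^ m) := by
        have h1 : δ₁ * (2 * (R : ℝ) + 1) / (4 * m) = δ₁ / (4 * m) * (2 * (R : ℝ) + 1) := by ring
        rw [h1, mul_pow]
        have h2 : (2 * (R : ℝ) + 1) ^ m ≠ 0 := by positivity
        field_simp

theorem cntle {ι : Type} [Fintype ι] [DecidableEq ι] (L : Submodule ℤ (ι → ℤ)) (N : ι → ℕ)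
    {r s : ℝ} (h : r ≤ s) : cnt L N r ≤ cnt L N s := by
  classical
  unfold cnt
  refine Finset.card_le_card fun x hx => ?_
  rw [Finset.mem_filter] at hx ⊢
  refine ⟨?_, hx.2⟩
  have h1 := hx.1
  rw [mem_bx] at h1 ⊢
  intro i
  exact (h1 i).trans (mul_le_mul_of_nonneg_right h (Nat.cast_nonneg _))

theorem alg {q A A' B B' F F' c c' : ℝ} (hq : 0 ≤ q) (hA0 : 0 ≤ A) (hB0 : 0 ≤ B) (hF0 : 0 ≤ F)
    (hc0 : 0 ≤ c) (hA : A ≤ A') (hB : B ≤ B') (hF : F ≤ F') (hc : c ≤ c') :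
    q * (A * (B * F * c)) ≤ q * (A' * (B' * F' * c')) := by
  have hB0' : 0 ≤ B' := hB0.trans hB
  have hF0' : 0 ≤ F' := hF0.trans hF
  refine mul_le_mul_of_nonneg_left ?_ hq
  refine mul_le_mul hA ?_ (by positivity) (hA0.trans hA)
  refine mul_le_mul ?_ hc hc0 (by positivity)
  exact mul_le_mul hB hF hF0 hB0'

theorem al2 {q K : ℝ} (D : ℕ) {e₁ e₂ e₃ c : ℝ} (hq : 0 ≤ q) (hK : 0 ≤ K) (h3 : 0 ≤ e₃)
    (hc : 0 ≤ c) (h1 : q ≤ e₁) (h2 : K ≤ e₂) :
    q ^ (D + 1) * K * e₃ * c ≤ e₁ ^ (D + 1) * e₂ * e₃ * c := by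
  have he : 0 ≤ e₁ := hq.trans h1
  refine mul_le_mul_of_nonneg_right ?_ hc
  refine mul_le_mul_of_nonneg_right ?_ h3
  refine mul_le_mul (pow_le_pow_left₀ hq h1 _) h2 hK (by positivity)

theorem tt1 {D m Q : ℕ} (hQ : (1 : ℝ) ≤ Q) (hmD : m ≤ D) :
    (4 * (m : ℝ) * 3 ^ D * Q) ^ m ≤ (4 * D * 3 ^ D) ^ D * (Q : ℝ) ^ D := by
  have hmD' : (m : ℝ) ≤ D := by exact_mod_cast hmD
  rcases Nat.eq_zero_or_pos D with h0 | h0
  · subst h0
    obtain rfl : m = 0 := by omega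
    simp
  have hD0 : (1 : ℝ) ≤ D := by exact_mod_cast h0
  rw [← mul_pow]
  have h1 : (1 : ℝ) ≤ 3 ^ D := one_le_pow₀ (by norm_num)
  have h4 : 1 ≤ 4 * (D : ℝ) * 3 ^ D * Q := by
    have h5 : 1 ≤ 4 * (D : ℝ) * 3 ^ D := by nlinarith
    nlinarith
  have h6 : 4 * (m : ℝ) * 3 ^ D * Q ≤ 4 * (D : ℝ) * 3 ^ D * Q :=
    mul_le_mul_of_nonneg_right (mul_le_mul_of_nonneg_right
      (mul_le_mul_of_nonneg_left hmD' (by norm_num)) (by positivity)) (by positivity)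
  calc (4 * (m : ℝ) * 3 ^ D * Q) ^ m ≤ (4 * (D : ℝ) * 3 ^ D * Q) ^ m :=
        pow_le_pow_left₀ (by positivity) h6 _
    _ ≤ (4 * (D : ℝ) * 3 ^ D * Q) ^ D := pow_le_pow_right₀ h4 hmD

theorem tt2 {D m : ℕ} (hm0 : (1 : ℝ) ≤ m) (hmD : m ≤ D) :
    ((m : ℝ) + 1) * (24 * ((m : ℝ) + 1) * m) ^ m ≤
      ((D : ℝ) + 1) * (24 * ((D : ℝ) + 1) * D) ^ D := by
  have hmD' : (m : ℝ) ≤ D := by exact_mod_cast hmD
  have hD0 : (1 : ℝ) ≤ D := hm0.trans hmD'
  have h4 : 1 ≤ 24 * ((D : ℝ) + 1) * D := by nlinarith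
  calc ((m : ℝ) + 1) * (24 * ((m : ℝ) + 1) * m) ^ m ≤
      ((D : ℝ) + 1) * (24 * ((D : ℝ) + 1) * D) ^ m := by
        refine mul_le_mul (by linarith) ?_ (by positivity) (by positivity)
        refine pow_le_pow_left₀ (by positivity) ?_ _
        refine mul_le_mul ?_ hmD' (by positivity) (by positivity)
        linarith
    _ ≤ _ := mul_le_mul_of_nonneg_left (pow_le_pow_right₀ h4 hmD) (by positivity)

/-- the row PTH -/
theorem pth (hCNT : CntStmt) (hLNP : LnpStmt) (hRNK : RnkStmt) (hCRA : CraStmt)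
    (hDTM : DtmStmt) (hKAP : KapStmt) (hPTP : PtpStmt) : PthStmt := by
  intro D hD
  obtain ⟨CP, hCP1, hCP⟩ := hPTP D
    ((D.factorial + D * (16 * D * D.factorial) + 3 * D * (D + 4) : ℕ) : ℝ) hD
  set KD : ℝ := (4 * D * 3 ^ D) ^ D * ((D + 1) * (24 * (D + 1) * D) ^ D) with hKD
  have hKD0 : 0 ≤ KD := by positivity
  have hD0 : (1 : ℝ) ≤ D := by exact_mod_cast hD
  have hDC : 0 ≤ (D : ℝ) * CP := by positivity
  refine ⟨3 * KD + 2 * (D + 1) + (D + 1) * CP + 20, by nlinarith, ?_⟩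
  intro ι _ _ g N ε τ δ T Q hcard hN hg hε hε1 hτ hδ hF hδT hτε hτN hQ hQτ hQδ hNQ
  have hne : Nonempty ι := Fintype.card_pos_iff.1 (by omega)
  obtain ⟨i₁, hi⟩ := Finite.exists_max N
  obtain ⟨y, Z, k, hy, hZ, hk, hpar, hc1, hc2⟩ := hCP Q hQ
  set L : ℝ := (Real.log Q) ^ 2 with hL
  have hL0 : 0 ≤ L := by positivity
  have hQ0 : (0 : ℝ) < Q := Nat.cast_pos.2 (by omega)
  have hQ1 : (1 : ℝ) ≤ Q := by exact_mod_cast (by omega : 1 ≤ Q)
  have hqq : (Q : ℝ) ≤ Real.exp (2 * L) := qq hQ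
  have hE1 : 1 ≤ Real.exp ((3 * KD + 2 * (D + 1) + (D + 1) * CP + 20) * L) := by
    rw [← Real.exp_zero]
    apply Real.exp_le_exp.2
    positivity
  have hbx : 0 < (bx N ε).card := by
    refine Finset.card_pos.2 ⟨0, mem_bx.2 fun i => ?_⟩
    simp only [Pi.zero_apply, Int.cast_zero, abs_zero]
    positivity
  have hbx' : (0 : ℝ) < (bx N ε).card := Nat.cast_pos.2 hbx
  have hT : T.Nonempty := by
    rw [← Finset.card_pos]
    have h1 : (0 : ℝ) < T.card := lt_of_lt_of_le (mul_pos hδ hbx') hδT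
    exact_mod_cast h1
  obtain ⟨v, hv⟩ := hT
  by_cases h3 : 3 ≤ T.card
  · by_cases hU : 16 * ((D : ℝ) * y) ^ k * (3 ^ D * Q) ≤ 2 * (⌊2 * ε * N i₁⌋₊ : ℝ) + 1
    · obtain ⟨m, hm1, hDm, e, he, hmain⟩ := cas2 hCNT hLNP hRNK hCRA hDTM hKAP hN hg hε hε1 hτ
        hδ hF hδT (by rw [hcard]; exact hτε) (by rw [hcard]; exact hτN) hQ hQδ hNQ i₁ hi y Z k hy
        hZ hk (by rw [hcard]; exact hpar) h3 (by rw [hcard]; exact hU)
      rw [hcard] at hmain hDm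
      refine ⟨e, he, ?_⟩
      have hmD : m ≤ D := by omega
      have hmD' : (m : ℝ) ≤ D := by exact_mod_cast hmD
      have hm0 : (1 : ℝ) ≤ m := by exact_mod_cast hm1
      have hP : 0 ≤ ∏ i, (N i : ℝ) := by positivity
      have s1 : Real.sqrt (∏ i, (N i : ℝ)) ≤ Q * Real.sqrt (τ * ∏ i, (N i : ℝ)) := by
        rw [Real.sqrt_le_iff]
        refine ⟨by positivity, ?_⟩
        rw [mul_pow, Real.sq_sqrt (by positivity)]
        have h1 : 1 ≤ τ * Q := by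
          rw [div_le_iff₀ hτ] at hQτ
          linarith
        have h2 : 1 ≤ (Q : ℝ) ^ 2 * τ := by nlinarith
        calc ∏ i, (N i : ℝ) = 1 * ∏ i, (N i : ℝ) := (one_mul _).symm
          _ ≤ ((Q : ℝ) ^ 2 * τ) * ∏ i, (N i : ℝ) := mul_le_mul_of_nonneg_right h2 hP
          _ = _ := by ring
      have s2 : Real.sqrt (τ * ∏ i, (N i : ℝ)) ≤ (4 * m * 3 ^ D * Q) ^ m *
          (((m : ℝ) + 1) * (24 * ((m : ℝ) + 1) * m) ^ m * ((Z : ℝ) ^ (m * (m + 1) / 2)) ^ k *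
            cnt (Lat g e) N 1) := by
        calc Real.sqrt (τ * ∏ i, (N i : ℝ)) = (4 * m * 3 ^ D * Q) ^ m *
              ((1 / (3 ^ D * (Q : ℝ)) / (4 * m)) ^ m * Real.sqrt (τ * ∏ i, (N i : ℝ))) := by
              rw [← mul_assoc, ← mul_pow]
              have : 4 * (m : ℝ) * 3 ^ D * Q * (1 / (3 ^ D * (Q : ℝ)) / (4 * m)) = 1 := by
                field_simp
              rw [this, one_pow, one_mul]
          _ ≤ _ := mul_le_mul_of_nonneg_left hmain (by positivity)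
      have t1 := tt1 hQ1 hmD
      have t2 := tt2 hm0 hmD
      have t3 : ((Z : ℝ) ^ (m * (m + 1) / 2)) ^ k ≤ Real.exp (CP * L) := by
        refine le_trans ?_ hc2
        refine pow_le_pow_left₀ (by positivity) ?_ _
        refine pow_le_pow_right₀ (by exact_mod_cast (by omega : 1 ≤ Z)) ?_
        calc m * (m + 1) / 2 ≤ m * (m + 1) / 1 := Nat.div_le_div_left (by norm_num) (by norm_num)
          _ = m * (m + 1) := Nat.div_one _
          _ ≤ D * D := Nat.mul_le_mul hmD (by omega)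
      have t4 : (cnt (Lat g e) N 1 : ℝ) ≤ cnt (Lat g e) N 8 := by
        exact_mod_cast cntle (Lat g e) N (by norm_num)
      calc Real.sqrt (∏ i, (N i : ℝ)) ≤ Q * Real.sqrt (τ * ∏ i, (N i : ℝ)) := s1
        _ ≤ Q * ((4 * m * 3 ^ D * Q) ^ m *
          (((m : ℝ) + 1) * (24 * ((m : ℝ) + 1) * m) ^ m * ((Z : ℝ) ^ (m * (m + 1) / 2)) ^ k *
            cnt (Lat g e) N 1)) := mul_le_mul_of_nonneg_left s2 hQ0.le
        _ ≤ Q * (((4 * D * 3 ^ D) ^ D * (Q : ℝ) ^ D) *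
          (((D : ℝ) + 1) * (24 * ((D : ℝ) + 1) * D) ^ D * Real.exp (CP * L) *
            cnt (Lat g e) N 8)) :=
            alg hQ0.le (by positivity) (by positivity) (by positivity) (Nat.cast_nonneg _)
              t1 t2 t3 t4
        _ = (Q : ℝ) ^ (D + 1) * KD * Real.exp (CP * L) * cnt (Lat g e) N 8 := by
            rw [hKD, pow_succ]
            ring
        _ ≤ (Real.exp (2 * L)) ^ (D + 1) * Real.exp (3 * KD * L) * Real.exp (CP * L) *
            cnt (Lat g e) N 8 :=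
            al2 D hQ0.le hKD0 (Real.exp_pos _).le (Nat.cast_nonneg _) hqq (kq hQ hKD0)
        _ = Real.exp (2 * (D + 1) * L + 3 * KD * L + CP * L) * cnt (Lat g e) N 8 := by
            rw [Real.exp_add, Real.exp_add, ← Real.exp_nat_mul]
            congr 4
            push_cast
            ring
        _ ≤ _ := by
            refine mul_le_mul_of_nonneg_right (Real.exp_le_exp.2 ?_) (Nat.cast_nonneg _)
            nlinarith [mul_nonneg hDC hL0]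
    · refine cas1 hg hτ hF hQτ hv hE1 ?_
      have hU' : 2 * (⌊2 * ε * N i₁⌋₊ : ℝ) + 1 ≤ Real.exp (CP * L) :=
        (not_le.1 hU).le.trans hc1
      have h1 := boxle hCNT N ε hε i₁ hi
      rw [hcard] at h1
      have h2 : ((bx N ε).card : ℝ) ≤ (2 * (⌊2 * ε * N i₁⌋₊ : ℝ) + 1) ^ D := by exact_mod_cast h1
      calc (Q : ℝ) * (bx N ε).card ≤ Real.exp (2 * L) * (Real.exp (CP * L)) ^ D := by
            refine mul_le_mul hqq (h2.trans ?_) (by positivity) (by positivity)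
            exact pow_le_pow_left₀ (by positivity) hU' _
        _ = Real.exp (2 * L + D * (CP * L)) := by
            rw [Real.exp_add, ← Real.exp_nat_mul]
        _ ≤ _ := by
            refine Real.exp_le_exp.2 ?_
            nlinarith [mul_nonneg hKD0 hL0, mul_nonneg (zero_le_one.trans hCP1) hL0,
              mul_nonneg (zero_le_one.trans hD0) hL0]
  · refine cas1 hg hτ hF hQτ hv hE1 ?_
    have h2 : ((T.card : ℕ) : ℝ) ≤ 2 := by exact_mod_cast (by omega : T.card ≤ 2)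
    have h4 : ((bx N ε).card : ℝ) ≤ 2 * Q := by
      calc ((bx N ε).card : ℝ) = 1 / δ * (δ * (bx N ε).card) := by field_simp
        _ ≤ 1 / δ * 2 := mul_le_mul_of_nonneg_left (hδT.trans h2) (by positivity)
        _ ≤ Q * 2 := mul_le_mul_of_nonneg_right hQδ (by norm_num)
        _ = 2 * Q := by ring
    have h5 := kq hQ (by norm_num : (0 : ℝ) ≤ 2)
    calc (Q : ℝ) * (bx N ε).card ≤ Real.exp (2 * L) * (Real.exp (3 * 2 * L) * Real.exp (2 * L)) := by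
          refine mul_le_mul hqq (h4.trans ?_) (by positivity) (by positivity)
          exact mul_le_mul h5 hqq (by positivity) (by positivity)
      _ = Real.exp (2 * L + (3 * 2 * L + 2 * L)) := by rw [Real.exp_add, Real.exp_add]
      _ ≤ _ := by
          refine Real.exp_le_exp.2 ?_
          nlinarith [mul_nonneg hKD0 hL0, mul_nonneg (zero_le_one.trans hCP1) hL0,
              mul_nonneg (zero_le_one.trans hD0) hL0, mul_nonneg hDC hL0]

end Pool.Agent.PCL.H82
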